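import Mathlib

set_option autoImplicit false

open MeasureTheory ProbabilityTheory Filter Topology
open scoped Real Pointwise

namespace Pool.Agent.V11191.LC

/-- Lebesgue measure on `[0,1]`. -/
noncomputable def P : Measure ℝ := volume.restrict (Set.Icc 0 1)

instance : IsProbabilityMeasure P := ⟨by simp [P]⟩

lemma integrable_of_continuous {E : Type} [NormedAddCommGroup E] {g : ℝ → E}
    (hg : Continuous g) : Integrable g P :=
  hg.integrableOn_Icc

/-- the characters -/
noncomputable def e (f : ℤ) (ω : ℝ) : ℂ := Complex.exp (2 * π * Complex.I * f * ω)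

lemma e_add (f g : ℤ) : e (f + g) = e f * e g := by
  funext ω
  simp only [e, Pi.mul_apply, ← Complex.exp_add]
  congr 1
  push_cast
  ring

lemma e_zero : e 0 = 1 := by
  funext ω
  simp [e]

lemma e_nsmul (n : ℕ) (f : ℤ) : e (n * f) = e f ^ n := by
  induction n with
  | zero => simp [e_zero]
  | succ n ih =>
    rw [pow_succ, ← ih, ← e_add]
    congr 1
    push_cast
    ring

lemma continuous_e (f : ℤ) : Continuous (e f) := by
  unfold e
  fun_prop

lemma integral_e (f : ℤ) : ∫ ω, e f ω ∂P = if f = 0 then 1 else 0 := by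
  unfold P
  rw [MeasureTheory.integral_Icc_eq_integral_Ioc, ← intervalIntegral.integral_of_le zero_le_one]
  split_ifs with h
  · subst h
    simp [e]
  · unfold e
    have hc : (2 * π * Complex.I * f : ℂ) ≠ 0 := by
      have : (f : ℂ) ≠ 0 := by exact_mod_cast h
      have h2 : (π : ℂ) ≠ 0 := by exact_mod_cast Real.pi_ne_zero
      simp [this, h2, Complex.I_ne_zero]
    rw [integral_exp_mul_complex hc]
    have h1 : Complex.exp (2 * π * Complex.I * f * (1 : ℝ)) = 1 := by
      have := Complex.exp_int_mul_two_pi_mul_I f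
      rw [← this]
      congr 1
      push_cast
      ring
    have h0 : Complex.exp (2 * π * Complex.I * f * (0 : ℝ)) = 1 := by simp
    rw [h1, h0]
    simp

/-- trigonometric polynomials with frequencies in `F` -/
noncomputable def T (F : Set ℤ) : Submodule ℂ (ℝ → ℂ) := Submodule.span ℂ (e '' F)

lemma T_mono {F G : Set ℤ} (h : F ⊆ G) : T F ≤ T G :=
  Submodule.span_mono (Set.image_mono h)

lemma e_mem {F : Set ℤ} {f : ℤ} (h : f ∈ F) : e f ∈ T F :=
  Submodule.subset_span ⟨f, h, rfl⟩

lemma mul_mem_T {F G : Set ℤ} {g h : ℝ → ℂ} (hg : g ∈ T F) (hh : h ∈ T G) :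
    g * h ∈ T (F + G) := by
  have h1 := Submodule.mul_mem_mul hg hh
  unfold T at h1
  rw [Submodule.span_mul_span] at h1
  refine Submodule.span_mono ?_ h1
  rintro _ ⟨_, ⟨f, hf, rfl⟩, _, ⟨g, hg, rfl⟩, rfl⟩
  exact ⟨f + g, Set.add_mem_add hf hg, e_add f g⟩

lemma pow_mem_T {F : Set ℤ} {g : ℝ → ℂ} (hg : g ∈ T F) (n : ℕ) : g ^ n ∈ T (n • F) := by
  induction n with
  | zero =>
    rw [pow_zero, zero_nsmul, ← e_zero]
    exact e_mem rfl
  | succ n ih =>
    rw [pow_succ, succ_nsmul]
    exact mul_mem_T ih hg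

lemma orth {F : Set ℤ} {g : ℝ → ℂ} (hg : g ∈ T F) (x : ℤ) (hx : ∀ f ∈ F, f + x ≠ 0) :
    Continuous g ∧ ∫ ω, g ω * e x ω ∂P = 0 := by
  unfold T at hg
  induction hg using Submodule.span_induction with
  | mem g hg =>
    obtain ⟨f, hf, rfl⟩ := hg
    refine ⟨continuous_e f, ?_⟩
    have : (fun ω => e f ω * e x ω) = e (f + x) := by
      rw [e_add]
      rfl
    rw [this, integral_e, if_neg (hx f hf)]
  | zero => exact ⟨continuous_zero, by simp⟩
  | add g h _ _ ihg ihh =>
    refine ⟨ihg.1.add ihh.1, ?_⟩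
    simp only [Pi.add_apply, add_mul]
    have h1 : Integrable (fun ω => g ω * e x ω) P :=
      integrable_of_continuous (ihg.1.mul (continuous_e x))
    have h2 : Integrable (fun ω => h ω * e x ω) P :=
      integrable_of_continuous (ihh.1.mul (continuous_e x))
    rw [integral_add h1 h2, ihg.2, ihh.2, add_zero]
  | smul c g _ ih =>
    refine ⟨ih.1.const_smul c, ?_⟩
    simp only [Pi.smul_apply, smul_eq_mul, mul_assoc]
    rw [integral_const_mul, ih.2, mul_zero]

lemma continuous_of_mem {F : Set ℤ} {g : ℝ → ℂ} (hg : g ∈ T F) : Continuous g := by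
  unfold T at hg
  induction hg using Submodule.span_induction with
  | mem g hg =>
    obtain ⟨f, hf, rfl⟩ := hg
    exact continuous_e f
  | zero => exact continuous_zero
  | add g h _ _ ihg ihh => exact ihg.add ihh
  | smul c g _ ih => exact ih.const_smul c

/-- the moments of the arcsine law -/
noncomputable def mu (j : ℕ) : ℝ :=
  ∑ k ∈ Finset.range (j + 1), (j.choose k : ℝ) / 2 ^ j * (if 2 * k = j then 1 else 0)

/-- the complex cosine -/
noncomputable def cc (b : ℤ) : ℝ → ℂ := fun ω => (Real.cos (2 * π * b * ω) : ℂ)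

lemma cc_eq (b : ℤ) : cc b = fun ω => (e b ω + e (-b) ω) / 2 := by
  funext ω
  simp only [cc, e]
  rw [Complex.ofReal_cos, Complex.cos]
  congr 2
  · congr 1
    push_cast
    ring
  · congr 1
    push_cast
    ring

lemma cc_pow (b : ℤ) (j : ℕ) : cc b ^ j = fun ω =>
    ∑ k ∈ Finset.range (j + 1), ((j.choose k : ℂ) / 2 ^ j) * e ((2 * k - j) * b) ω := by
  funext ω
  rw [Pi.pow_apply, cc_eq, div_pow, add_pow, Finset.sum_div]
  refine Finset.sum_congr rfl fun k hk => ?_
  have hk' : k ≤ j := Nat.lt_succ_iff.1 (Finset.mem_range.1 hk)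
  have h1 : e b ω ^ k * e (-b) ω ^ (j - k) = e ((2 * k - j) * b) ω := by
    have h2 : e ((2 * k - j) * b) = e b ^ k * e (-b) ^ (j - k) := by
      rw [← e_nsmul, ← e_nsmul, ← e_add]
      congr 1
      push_cast [Nat.cast_sub hk']
      ring
    rw [h2]
    rfl
  rw [h1]
  ring

lemma integral_mul_cc_pow {F : Set ℤ} {g : ℝ → ℂ} (hg : g ∈ T F) (b : ℤ) (j : ℕ)
    (h : ∀ l : ℤ, l ≠ 0 → |l| ≤ j → l * b ∉ F) (hsymm : ∀ f ∈ F, -f ∈ F) :
    ∫ ω, g ω * (cc b ω) ^ j ∂P = mu j * ∫ ω, g ω ∂P := by
  have h1 : ∀ ω, g ω * (cc b ω) ^ j = ∑ k ∈ Finset.range (j + 1),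
      ((j.choose k : ℂ) / 2 ^ j) * (g ω * e ((2 * k - j) * b) ω) := by
    intro ω
    have h2 := congrFun (cc_pow b j) ω
    rw [Pi.pow_apply] at h2
    rw [h2, Finset.mul_sum]
    refine Finset.sum_congr rfl fun k _ => by ring
  simp only [h1]
  have hcont := continuous_of_mem hg
  have hint : ∀ x : ℤ, Integrable (fun ω => g ω * e x ω) P := fun x =>
    integrable_of_continuous (hcont.mul (continuous_e x))
  rw [integral_finsetSum _ (fun k _ => (hint _).const_mul _)]
  unfold mu
  rw [Complex.ofReal_sum, Finset.sum_mul]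
  refine Finset.sum_congr rfl fun k hk => ?_
  have hk' : k ≤ j := Nat.lt_succ_iff.1 (Finset.mem_range.1 hk)
  rw [integral_const_mul]
  split_ifs with h3
  · have h4 : ((2 * k - j : ℤ) * b) = 0 := by
      have : (2 * k - j : ℤ) = 0 := by
        have : ((2 * k : ℕ) : ℤ) = j := by exact_mod_cast h3
        push_cast at this
        omega
      rw [this, zero_mul]
    rw [h4, e_zero]
    simp
  · have h5 := (orth hg ((2 * k - j : ℤ) * b) ?_).2
    · rw [h5]
      simp
    · intro f hf hne
      have h6 : f = -((2 * k - j : ℤ) * b) := by linarith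
      refine h (2 * k - j) ?_ ?_ ?_
      · intro h7
        apply h3
        omega
      · rw [abs_le]
        constructor <;> omega
      · have h8 := hsymm f hf
        rw [h6, neg_neg] at h8
        exact h8

end Pool.Agent.V11191.LC
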