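import Pool.Agent.V11191.LC.Jet

set_option autoImplicit false

open MeasureTheory ProbabilityTheory Filter Topology
open scoped Real Pointwise

namespace Pool.Agent.V11191.LC

lemma cum_step {F : Set ℤ} {X : ℝ → ℝ} (hXc : Continuous X)
    (hX : (fun ω => (X ω : ℂ)) ∈ T F) {b : ℤ} (hb : b ≠ 0) (m : ℕ)
    (h0 : (0 : ℤ) ∈ F) (hsymm : ∀ f ∈ F, -f ∈ F)
    (h : ∀ l : ℤ, l ≠ 0 → |l| ≤ m → l * b ∉ m • F) (r : ℕ) (hr : r ≤ m) :
    cumulant r (fun ω => X ω + c b ω) = cumulant r X + kappaTilde r := by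
  have hsum : Continuous (fun ω => X ω + c b ω) := hXc.add (continuous_c b)
  have hI : ∀ j, iteratedDeriv j I0 0 = mu j := by
    intro j
    rw [← mgf_c hb, jet_mgf (continuous_c b), moment_c hb]
  have hSI : SP I0 := by
    rw [← mgf_c hb]
    exact SP_mgf (continuous_c b)
  have hSX := SP_mgf hXc
  rw [cumulant_eq, cumulant_eq, kappaTilde, ← log_mul_jet hSX hSI]
  refine jet_log (SP_mgf hsum) (hSX.mul hSI) r fun i hi => ?_
  rw [jet_mgf hsum, iteratedDeriv_mul (hSX.contDiff i).contDiffAt (hSI.contDiff i).contDiffAt]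
  have h1 : ∀ ω, (X ω + c b ω) ^ i = ∑ k ∈ Finset.range (i + 1),
      (i.choose k : ℝ) * (X ω ^ k * c b ω ^ (i - k)) := by
    intro ω
    rw [add_pow]
    exact Finset.sum_congr rfl fun k _ => by ring
  simp only [h1]
  have hint : ∀ k, Integrable (fun ω => X ω ^ k * c b ω ^ (i - k)) P := fun k =>
    integrable_of_continuous ((hXc.pow _).mul ((continuous_c b).pow _))
  rw [integral_finsetSum _ (fun k _ => (hint k).const_mul _)]
  refine Finset.sum_congr rfl fun k hk => ?_
  have hk' : k ≤ i := Nat.lt_succ_iff.1 (Finset.mem_range.1 hk)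
  rw [integral_const_mul, int_mul_pow hX b k (i - k) m (by omega) h0 hsymm h, jet_mgf hXc, hI]
  ring

/-- signed elements of `A` and zero -/
def B (A : Finset ℕ) : Finset ℤ :=
  insert 0 (A.image (fun x : ℕ => (x : ℤ)) ∪ A.image (fun x : ℕ => -(x : ℤ)))

lemma card_B (A : Finset ℕ) : (B A).card ≤ 2 * A.card + 1 := by
  unfold B
  refine (Finset.card_insert_le _ _).trans ?_
  have h1 := Finset.card_union_le (A.image (fun x : ℕ => (x : ℤ)))
    (A.image (fun x : ℕ => -(x : ℤ)))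
  have h2 := Finset.card_image_le (s := A) (f := fun x : ℕ => (x : ℤ))
  have h3 := Finset.card_image_le (s := A) (f := fun x : ℕ => -(x : ℤ))
  omega

lemma zero_mem_B (A : Finset ℕ) : (0 : ℤ) ∈ B A := Finset.mem_insert_self _ _

lemma neg_mem_B (A : Finset ℕ) : ∀ f ∈ B A, -f ∈ B A := by
  intro f hf
  simp only [B, Finset.mem_insert, Finset.mem_union, Finset.mem_image] at *
  rcases hf with h | ⟨x, hx, rfl⟩ | ⟨x, hx, rfl⟩
  · left; omega
  · right; right; exact ⟨x, hx, rfl⟩
  · right; left; exact ⟨x, hx, by ring⟩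

/-- number of forbidden values -/
def G (n m : ℕ) : ℕ := m * (2 * n + 1) ^ m

lemma exists_next (η : ℝ) (hη : 1 < η) (A : Finset ℕ) (x m : ℕ) (hx : 0 < x) :
    ∃ b : ℕ, η * x ≤ b ∧ (b : ℝ) ≤ η * x + 1 + G A.card m ∧ 0 < b ∧
      ∀ l : ℤ, l ≠ 0 → |l| ≤ m → l * (b : ℤ) ∉ m • (B A : Set ℤ) := by
  classical
  -- forbidden values
  let bad : Finset ℕ := (Finset.range m).biUnion fun l =>
    ((m • B A).image fun f => (f / ((l : ℤ) + 1)).toNat)
  have hcard : bad.card ≤ G A.card m := by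
    refine Finset.card_biUnion_le.trans ?_
    calc ∑ l ∈ Finset.range m, ((m • B A).image fun f => (f / ((l : ℤ) + 1)).toNat).card
        ≤ ∑ _l ∈ Finset.range m, (2 * A.card + 1) ^ m := by
          refine Finset.sum_le_sum fun l _ => ?_
          refine Finset.card_image_le.trans (Finset.card_nsmul_le.trans ?_)
          exact Nat.pow_le_pow_left (card_B A) m
      _ = G A.card m := by simp [G]
  obtain ⟨N, hN⟩ : ∃ N : ℕ, N = ⌈η * x⌉₊ := ⟨_, rfl⟩
  have hlt : bad.card < (Finset.Icc N (N + G A.card m)).card := by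
    rw [Nat.card_Icc]
    omega
  obtain ⟨b, hb, hbad⟩ := Finset.exists_mem_notMem_of_card_lt_card hlt
  rw [Finset.mem_Icc] at hb
  have hpos : 0 < η * x := by
    have : (0 : ℝ) < x := by exact_mod_cast hx
    positivity
  have hNle : η * x ≤ N := hN ▸ Nat.le_ceil _
  have hbN : (N : ℝ) ≤ b := by exact_mod_cast hb.1
  have hb0 : 0 < b := by
    have : (0 : ℝ) < b := by linarith
    exact_mod_cast this
  refine ⟨b, hNle.trans hbN, ?_, hb0, ?_⟩
  · have h1 : (b : ℝ) ≤ N + G A.card m := by exact_mod_cast hb.2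
    have h2 : (N : ℝ) < η * x + 1 := hN ▸ Nat.ceil_lt_add_one hpos.le
    linarith
  · -- positive l first
    have hp : ∀ l : ℕ, l ≠ 0 → l ≤ m → (l : ℤ) * (b : ℤ) ∉ m • B A := by
      intro l hl hlm hmem
      apply hbad
      rw [Finset.mem_biUnion]
      obtain ⟨k, rfl⟩ := Nat.exists_eq_succ_of_ne_zero hl
      refine ⟨k, Finset.mem_range.2 (by omega), Finset.mem_image.2 ⟨_, hmem, ?_⟩⟩
      have h1 : ((k.succ : ℕ) : ℤ) = (k : ℤ) + 1 := by push_cast; ring
      rw [h1, Int.mul_ediv_cancel_left _ (by omega)]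
      simp
    have hsymm' : ∀ i : ℕ, ∀ f ∈ i • B A, -f ∈ i • B A := by
      intro i
      induction i with
      | zero =>
        intro f hf
        rw [zero_nsmul, Finset.mem_zero] at *
        rw [hf, neg_zero]
      | succ i ih =>
        intro f hf
        rw [succ_nsmul, Finset.mem_add] at *
        obtain ⟨x, hx, y, hy, rfl⟩ := hf
        exact ⟨-x, ih x hx, -y, neg_mem_B A y hy, by ring⟩
    intro l hl hlm hmem
    rw [← Finset.coe_nsmul, Finset.mem_coe] at hmem
    have hnat : l.natAbs ≤ m := by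
      have := Int.natCast_natAbs l
      omega
    rcases Int.natAbs_eq l with h1 | h1
    · refine hp l.natAbs (by omega) hnat ?_
      rw [← h1]
      exact hmem
    · refine hp l.natAbs (by omega) hnat ?_
      have h2 := hsymm' m _ hmem
      rw [← neg_mul] at h2
      have h3 : ((l.natAbs : ℕ) : ℤ) = -l := by omega
      rw [h3]
      exact h2

/-- the sum -/
noncomputable def S (a : ℕ → ℕ) (n : ℕ) (ω : ℝ) : ℝ :=
  ∑ k ∈ Finset.range n, Real.cos (2 * π * a k * ω)

lemma S_succ (a : ℕ → ℕ) (n : ℕ) : S a (n + 1) = fun ω => S a n ω + c (a n) ω := by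
  funext ω
  simp only [S, c, Finset.sum_range_succ]
  push_cast
  rfl

lemma continuous_S (a : ℕ → ℕ) (n : ℕ) : Continuous (S a n) := by
  unfold S
  fun_prop

lemma S_mem (a : ℕ → ℕ) (n : ℕ) (A : Finset ℕ) (hA : ∀ k < n, a k ∈ A) :
    (fun ω => (S a n ω : ℂ)) ∈ T (B A : Set ℤ) := by
  have h : (fun ω => (S a n ω : ℂ)) = ∑ k ∈ Finset.range n, cc (a k) := by
    funext ω
    simp only [S, Finset.sum_apply, cc]
    push_cast
    rfl
  rw [h]
  refine Submodule.sum_mem _ fun k hk => ?_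
  have hk' := hA k (Finset.mem_range.1 hk)
  have h1 : cc (a k) = (1 / 2 : ℂ) • (e (a k) + e (-(a k : ℤ))) := by
    rw [cc_eq]
    funext ω
    simp only [Pi.smul_apply, Pi.add_apply, smul_eq_mul]
    ring
  rw [h1]
  refine Submodule.smul_mem _ _ (Submodule.add_mem _ (e_mem ?_) (e_mem ?_))
  · simp only [B, Finset.coe_insert, Finset.coe_union, Finset.coe_image]
    right; left
    exact ⟨_, hk', rfl⟩
  · simp only [B, Finset.coe_insert, Finset.coe_union, Finset.coe_image]
    right; right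
    exact ⟨_, hk', rfl⟩

/-- the order of independence that can be afforded -/
def mm (n x : ℕ) : ℕ := Nat.findGreatest (fun m => m * G n m ≤ x) n

lemma exists_seq (η : ℝ) (hη : 1 < η) : ∃ (a : ℕ → ℕ), a 0 = 1 ∧ (∀ n, 0 < a n) ∧
    ∀ n, η * a n ≤ a (n + 1) ∧
      (a (n + 1) : ℝ) ≤ η * a n + 1 + G ((Finset.range (n + 1)).image a).card
        (mm ((Finset.range (n + 1)).image a).card (a n)) ∧
      ∀ l : ℤ, l ≠ 0 → |l| ≤ mm ((Finset.range (n + 1)).image a).card (a n) →
        l * (a (n + 1) : ℤ) ∉ (mm ((Finset.range (n + 1)).image a).card (a n)) •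
          (B ((Finset.range (n + 1)).image a) : Set ℤ) := by
  classical
  choose f hf using fun (A : Finset ℕ) (x : ℕ) (hx : 0 < x) =>
    exists_next η hη A x (mm A.card x) hx
  let st : ℕ → {s : Finset ℕ × ℕ // 0 < s.2} := fun n =>
    Nat.rec ⟨({1}, 1), one_pos⟩ (fun _ s =>
      ⟨(insert (f s.1.1 s.1.2 s.2) s.1.1, f s.1.1 s.1.2 s.2), (hf s.1.1 s.1.2 s.2).2.2.1⟩) n
  let a : ℕ → ℕ := fun n => (st n).1.2
  have hst : ∀ n, st (n + 1) = ⟨(insert (f (st n).1.1 (st n).1.2 (st n).2) (st n).1.1,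
      f (st n).1.1 (st n).1.2 (st n).2), (hf (st n).1.1 (st n).1.2 (st n).2).2.2.1⟩ :=
    fun n => rfl
  have hA : ∀ n, (st n).1.1 = (Finset.range (n + 1)).image a := by
    intro n
    induction n with
    | zero => simp [a, st]
    | succ n ih =>
      rw [Finset.range_add_one, Finset.image_insert, ← ih, hst]
  have ha : ∀ n, a (n + 1) = f (st n).1.1 (st n).1.2 (st n).2 := fun n => rfl
  refine ⟨a, rfl, fun n => (st n).2, fun n => ?_⟩
  obtain ⟨h1, h2, h3, h4⟩ := hf (st n).1.1 (st n).1.2 (st n).2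
  rw [← ha] at h1 h2 h4
  rw [hA] at h2 h4
  exact ⟨h1, h2, h4⟩

end Pool.Agent.V11191.LC
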