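import Pool.Agent.V11191.LC.Fourier

set_option autoImplicit false

open MeasureTheory ProbabilityTheory Filter Topology
open scoped Real Pointwise

namespace Pool.Agent.V11191.LC

/-- smooth positive functions -/
def SP (f : ℝ → ℝ) : Prop := ContDiff ℝ (⊤ : ℕ∞) f ∧ ∀ t, 0 < f t

lemma SP.contDiff {f : ℝ → ℝ} (hf : SP f) (n : ℕ) : ContDiff ℝ n f :=
  hf.1.of_le (by exact_mod_cast le_top)

lemma SP.deriv_contDiff {f : ℝ → ℝ} (hf : SP f) (n : ℕ) : ContDiff ℝ n (deriv f) := by
  have h1 : ContDiff ℝ ((n : ℕ) + 1 : ℕ) f := hf.contDiff (n + 1)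
  have h2 : ContDiff ℝ ((n : WithTop ℕ∞) + 1) f := by exact_mod_cast h1
  exact (contDiff_succ_iff_deriv.1 h2).2.2

lemma SP.quot {f : ℝ → ℝ} (hf : SP f) (n : ℕ) : ContDiff ℝ n (fun t => deriv f t / f t) :=
  (hf.deriv_contDiff n).div (hf.contDiff n) (fun t => (hf.2 t).ne')

lemma SP.deriv_log {f : ℝ → ℝ} (hf : SP f) :
    deriv (fun t => Real.log (f t)) = fun t => deriv f t / f t := by
  funext t
  have h1 : DifferentiableAt ℝ f t := (hf.contDiff 1).differentiable (by norm_num) t
  exact (h1.hasDerivAt.log (hf.2 t).ne').deriv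

lemma jet_log {f g : ℝ → ℝ} (hf : SP f) (hg : SP g) (m : ℕ)
    (h : ∀ i ≤ m, iteratedDeriv i f 0 = iteratedDeriv i g 0) :
    iteratedDeriv m (fun t => Real.log (f t)) 0 = iteratedDeriv m (fun t => Real.log (g t)) 0 := by
  have h0 : f 0 = g 0 := by
    have := h 0 (Nat.zero_le _)
    simpa using this
  have key : ∀ k, k + 1 ≤ m → iteratedDeriv k (fun t => deriv f t / f t) 0 =
      iteratedDeriv k (fun t => deriv g t / g t) 0 := by
    intro k
    induction k using Nat.strong_induction_on with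
    | _ k ih =>
      intro hk
      have leib : ∀ f, SP f → iteratedDeriv (k + 1) f 0 = ∑ i ∈ Finset.range (k + 1),
          (k.choose i : ℝ) * iteratedDeriv i f 0 *
            iteratedDeriv (k - i) (fun t => deriv f t / f t) 0 := by
        intro f hf
        rw [iteratedDeriv_succ', ← iteratedDeriv_mul (hf.contDiff k).contDiffAt
          (hf.quot k).contDiffAt]
        congr 1
        funext t
        have := (hf.2 t).ne'
        simp only [Pi.mul_apply]
        field_simp
      have h1 := leib f hf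
      have h2 := leib g hg
      rw [Finset.sum_range_succ'] at h1 h2
      have h3 : ∑ i ∈ Finset.range k, (k.choose (i + 1) : ℝ) * iteratedDeriv (i + 1) f 0 *
            iteratedDeriv (k - (i + 1)) (fun t => deriv f t / f t) 0 =
          ∑ i ∈ Finset.range k, (k.choose (i + 1) : ℝ) * iteratedDeriv (i + 1) g 0 *
            iteratedDeriv (k - (i + 1)) (fun t => deriv g t / g t) 0 := by
        refine Finset.sum_congr rfl fun i hi => ?_
        have hi' := Finset.mem_range.1 hi
        rw [h (i + 1) (by omega), ih (k - (i + 1)) (by omega) (by omega)]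
      rw [h3, h (k + 1) hk] at h1
      rw [h1] at h2
      simp only [Nat.choose_zero_right, Nat.cast_one, one_mul, iteratedDeriv_zero, Nat.sub_zero,
        add_right_inj] at h2
      rw [h0] at h2
      exact mul_left_cancel₀ (hg.2 0).ne' h2
  rcases m with _ | m
  · simp [h0]
  · rw [iteratedDeriv_succ', iteratedDeriv_succ', hf.deriv_log, hg.deriv_log]
    exact key m le_rfl

lemma SP.log_contDiff {f : ℝ → ℝ} (hf : SP f) (n : ℕ) :
    ContDiff ℝ n (fun t => Real.log (f t)) :=
  (hf.contDiff n).log (fun t => (hf.2 t).ne')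

lemma SP.mul {f g : ℝ → ℝ} (hf : SP f) (hg : SP g) : SP (f * g) :=
  ⟨hf.1.mul hg.1, fun t => mul_pos (hf.2 t) (hg.2 t)⟩

lemma log_mul_jet {f g : ℝ → ℝ} (hf : SP f) (hg : SP g) (m : ℕ) :
    iteratedDeriv m (fun t => Real.log ((f * g) t)) 0 =
      iteratedDeriv m (fun t => Real.log (f t)) 0 + iteratedDeriv m (fun t => Real.log (g t)) 0 := by
  rw [← iteratedDeriv_add (hf.log_contDiff m).contDiffAt (hg.log_contDiff m).contDiffAt]
  congr 1
  funext t
  simp only [Pi.mul_apply, Pi.add_apply]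
  exact Real.log_mul (hf.2 t).ne' (hg.2 t).ne'

/-- everything is integrable -/
lemma expSet {X : ℝ → ℝ} (hX : Continuous X) : integrableExpSet X P = Set.univ := by
  ext t
  simp only [integrableExpSet, Set.mem_ofPred_eq, Set.mem_univ, iff_true]
  exact integrable_of_continuous (by fun_prop)

lemma SP_mgf {X : ℝ → ℝ} (hX : Continuous X) : SP (mgf X P) := by
  refine ⟨?_, ?_⟩
  · have h := analyticOnNhd_mgf (X := X) (μ := P)
    rw [expSet hX, interior_univ] at h
    exact h.contDiff
  · intro t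
    exact mgf_pos (integrable_of_continuous (by fun_prop))

lemma jet_mgf {X : ℝ → ℝ} (hX : Continuous X) (n : ℕ) :
    iteratedDeriv n (mgf X P) 0 = ∫ ω, X ω ^ n ∂P := by
  rw [iteratedDeriv_mgf_zero (by rw [expSet hX, interior_univ]; trivial)]
  rfl

/-- `m`-th cumulant of `X` with respect to Lebesgue measure on `[0,1]` -/
noncomputable def cumulant (m : ℕ) (X : ℝ → ℝ) : ℝ :=
  iteratedDeriv m (fun t => Real.log (∫ ω, Real.exp (t * X ω) ∂P)) 0

lemma cumulant_eq (m : ℕ) (X : ℝ → ℝ) :
    cumulant m X = iteratedDeriv m (fun t => Real.log (mgf X P t)) 0 := rfl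

/-- the modified Bessel function `I_0` -/
noncomputable def I0 (t : ℝ) : ℝ := ∑' j : ℕ, (t / 2) ^ (2 * j) / ((j.factorial : ℝ) ^ 2)

/-- cumulants of the arcsine law -/
noncomputable def kappaTilde (m : ℕ) : ℝ := iteratedDeriv m (fun t => Real.log (I0 t)) 0

/-- cosine -/
noncomputable def c (b : ℤ) (ω : ℝ) : ℝ := Real.cos (2 * π * b * ω)

lemma continuous_c (b : ℤ) : Continuous (c b) := by
  unfold c
  fun_prop

lemma int_mul_pow {F : Set ℤ} {X : ℝ → ℝ} (hX : (fun ω => (X ω : ℂ)) ∈ T F) (b : ℤ) (i j m : ℕ)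
    (hij : i + j ≤ m) (h0 : (0 : ℤ) ∈ F) (hsymm : ∀ f ∈ F, -f ∈ F)
    (h : ∀ l : ℤ, l ≠ 0 → |l| ≤ m → l * b ∉ m • F) :
    ∫ ω, X ω ^ i * c b ω ^ j ∂P = mu j * ∫ ω, X ω ^ i ∂P := by
  have hmono : ∀ i, i ≤ m → i • F ⊆ m • F := by
    intro i hi
    obtain ⟨d, rfl⟩ := Nat.exists_eq_add_of_le hi
    rw [add_nsmul]
    intro x hx
    refine ⟨x, hx, 0, ?_, add_zero x⟩
    have : ∀ d : ℕ, (0 : ℤ) ∈ d • F := by
      intro d
      induction d with
      | zero => rw [zero_nsmul]; exact Set.zero_mem_zero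
      | succ d ih => rw [succ_nsmul]; exact ⟨0, ih, 0, h0, add_zero 0⟩
    exact this d
  have hsymm' : ∀ i : ℕ, ∀ f ∈ i • F, -f ∈ i • F := by
    intro i
    induction i with
    | zero =>
      intro f hf
      rw [zero_nsmul, Set.mem_zero] at *
      rw [hf, neg_zero]
    | succ i ih =>
      rw [succ_nsmul]
      rintro _ ⟨x, hx, y, hy, rfl⟩
      exact ⟨-x, ih x hx, -y, hsymm y hy, by simp only; ring⟩
  have h1 := integral_mul_cc_pow (pow_mem_T hX i) b j (by
    intro l hl hlj hmem
    exact h l hl (hlj.trans (by exact_mod_cast (by omega))) (hmono i (by omega) hmem))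
    (hsymm' i)
  have h2 : ∀ ω, (((fun ω => (X ω : ℂ)) ^ i) ω) * cc b ω ^ j =
      ((X ω ^ i * c b ω ^ j : ℝ) : ℂ) := by
    intro ω
    simp only [Pi.pow_apply, cc, c]
    push_cast
    rfl
  have h3 : ∀ ω, (((fun ω => (X ω : ℂ)) ^ i) ω) = ((X ω ^ i : ℝ) : ℂ) := by
    intro ω
    simp only [Pi.pow_apply]
    push_cast
    rfl
  simp only [h2] at h1
  simp only [h3] at h1
  rw [integral_complex_ofReal, integral_complex_ofReal] at h1
  exact_mod_cast h1

lemma one_mem_T : (fun _ : ℝ => ((1 : ℝ) : ℂ)) ∈ T {0} := by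
  have h : (fun _ : ℝ => ((1 : ℝ) : ℂ)) = e 0 := by
    rw [e_zero]
    funext ω
    simp
  rw [h]
  exact e_mem rfl

lemma moment_c {b : ℤ} (hb : b ≠ 0) (j : ℕ) : ∫ ω, c b ω ^ j ∂P = mu j := by
  have h := int_mul_pow (X := fun _ => 1) one_mem_T b 0 j j (by omega) rfl (by simp) (by
    intro l hl _ hmem
    have : ∀ d : ℕ, d • ({0} : Set ℤ) ⊆ {0} := by
      intro d
      induction d with
      | zero => rw [zero_nsmul]; exact fun x hx => hx
      | succ d ih =>
        rw [succ_nsmul]
        rintro _ ⟨x, hx, y, hy, rfl⟩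
        have hx' := ih hx
        simp only [Set.mem_singleton_iff] at *
        rw [hx', hy, add_zero]
    have h1 := this j hmem
    simp only [Set.mem_singleton_iff, mul_eq_zero] at h1
    tauto)
  simpa using h

lemma mu_odd (j : ℕ) (hj : ¬ Even j) : mu j = 0 := by
  unfold mu
  refine Finset.sum_eq_zero fun k _ => ?_
  rw [if_neg, mul_zero]
  rintro rfl
  exact hj (even_two_mul k)

lemma mu_even (j : ℕ) : mu (2 * j) = ((2 * j).choose j : ℝ) / 2 ^ (2 * j) := by
  unfold mu
  rw [Finset.sum_eq_single j]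
  · simp
  · intro k _ hk
    rw [if_neg (by omega), mul_zero]
  · intro h
    exact absurd (Finset.mem_range.2 (by omega)) h

lemma mgf_c {b : ℤ} (hb : b ≠ 0) : mgf (c b) P = I0 := by
  funext t
  have hbd : ∀ ω, |c b ω| ≤ 1 := fun ω => Real.abs_cos_le_one _
  have h1 : ∀ ω, HasSum (fun n : ℕ => (t * c b ω) ^ n / n.factorial) (Real.exp (t * c b ω)) :=
    fun ω => by
      rw [Real.exp_eq_exp_ℝ]
      exact NormedSpace.expSeries_div_hasSum_exp (t * c b ω)
  have hcont : ∀ n : ℕ, Continuous (fun ω => (t * c b ω) ^ n / n.factorial) := by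
    intro n
    have := continuous_c b
    fun_prop
  have h2 := hasSum_integral_of_summable_integral_norm (μ := P)
    (F := fun (n : ℕ) ω => (t * c b ω) ^ n / n.factorial)
    (fun n => integrable_of_continuous (hcont n)) (by
      refine Summable.of_nonneg_of_le (fun n => integral_nonneg fun ω => norm_nonneg _)
        (fun n => ?_) (Real.summable_pow_div_factorial |t|)
      have h3 : ∫ ω, ‖(t * c b ω) ^ n / n.factorial‖ ∂P ≤
          ∫ _ω, |t| ^ n / n.factorial ∂P := by
        refine integral_mono (integrable_of_continuous (hcont n).norm)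
          (integrable_const _) fun ω => ?_
        simp only [norm_div, norm_pow, Real.norm_eq_abs, norm_mul, Nat.abs_cast]
        gcongr
        calc |t| * |c b ω| ≤ |t| * 1 := by gcongr; exact hbd ω
          _ = |t| := mul_one _
      simpa using h3)
  have h4 : ∀ n : ℕ, ∫ ω, (t * c b ω) ^ n / n.factorial ∂P = t ^ n / n.factorial * mu n := by
    intro n
    have : ∀ ω, (t * c b ω) ^ n / n.factorial = t ^ n / n.factorial * c b ω ^ n := by
      intro ω
      rw [mul_pow]
      ring
    simp only [this]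
    rw [integral_const_mul, moment_c hb]
  simp only [h4] at h2
  have h5 : ∀ ω, ∑' n : ℕ, (t * c b ω) ^ n / n.factorial = Real.exp (t * c b ω) :=
    fun ω => (h1 ω).tsum_eq
  simp only [h5] at h2
  have hinj : Function.Injective (fun j : ℕ => 2 * j) := fun a b h => by simpa using h
  have h6 := (hinj.hasSum_iff (f := fun n : ℕ => t ^ n / n.factorial * mu n) (by
    intro x hx
    rw [mu_odd x, mul_zero]
    intro he
    obtain ⟨r, hr⟩ := he
    exact hx ⟨r, by simp only; omega⟩)).2 h2
  have h7 : ∀ j : ℕ, t ^ (2 * j) / ((2 * j).factorial : ℝ) * mu (2 * j) =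
      (t / 2) ^ (2 * j) / ((j.factorial : ℝ) ^ 2) := by
    intro j
    rw [mu_even]
    have h8 : (((2 * j).choose j : ℝ)) * j.factorial * j.factorial = (2 * j).factorial := by
      have := Nat.choose_mul_factorial_mul_factorial (show j ≤ 2 * j by omega)
      rw [show 2 * j - j = j by omega] at this
      exact_mod_cast this
    have h9 : (j.factorial : ℝ) ≠ 0 := by exact_mod_cast j.factorial_ne_zero
    have h10 : ((2 * j).factorial : ℝ) ≠ 0 := by exact_mod_cast (2 * j).factorial_ne_zero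
    rw [div_pow]
    field_simp
    rw [← h8]
    ring
  have h11 : HasSum (fun j : ℕ => (t / 2) ^ (2 * j) / ((j.factorial : ℝ) ^ 2))
      (∫ ω, Real.exp (t * c b ω) ∂P) := by
    refine h6.congr_fun ?_ |> id
    intro j
    exact (h7 j).symm
  exact h11.tsum_eq.symm

end Pool.Agent.V11191.LC
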